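import Mathlib

/-!
The third order rational difference equation `x (n+1) = (α + x n) / x (n-2)`, `α > 0`, has unbounded
positive solutions, for every parameter `α > 0` and for a nonempty open set of positive initial
conditions.

Idea: in logarithmic coordinates `X n = log (x n)` the equation reads
`X (n+3) = ℓ (X (n+2)) - X n` with `ℓ t = log (α + exp t)`, which is within a bounded distance of
`max t 0`.  The homogeneous equation `X (n+3) = max (X (n+2)) 0 - X n` maps the cone of negative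
triples `(-A,-B,-C)` to itself after 7 steps (if `C ≤ A`) or 8 steps (if `A ≤ C`), and each such
return multiplies `A + B + C` by at least `3/2`.  The bounded error is harmless on a slightly
smaller cone.
-/

set_option autoImplicit false

namespace Pool.Agent.Results.MP_f66a6a_an.Unbounded

/-- One return to the cone, in logarithmic coordinates, for an arbitrary function `l` within bounded
distance `c` of `max t 0` and lying above the identity. -/
theorem step (l : ℝ → ℝ) (c : ℝ) (hc : 0 < c)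
    (h1 : ∀ t, t ≤ l t) (h2 : ∀ t, -c ≤ l t) (h3 : ∀ t, t ≤ 0 → l t ≤ c)
    (h4 : ∀ t, 0 ≤ t → l t ≤ t + c)
    (X : ℕ → ℝ) (hX : ∀ n, X (n + 3) = l (X (n + 2)) - X n) (n : ℕ) (A B C : ℝ)
    (hA : X n = -A) (hB : X (n + 1) = -B) (hC : X (n + 2) = -C)
    (iA : -c ≤ A) (iC : -c ≤ C) (iB : A + B + C ≤ 4 * B) (iS : 1000 * c ≤ A + B + C) :
    A + B + C - c ≤ X (n + 5) ∧
    ∃ m A' B' C', X m = -A' ∧ X (m + 1) = -B' ∧ X (m + 2) = -C' ∧ -c ≤ A' ∧ -c ≤ C' ∧
      A' + B' + C' ≤ 4 * B' ∧ 1000 * c ≤ A' + B' + C' ∧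
      (A + B + C) + c ≤ A' + B' + C' := by
  have e3 : X (n + 3) = l (X (n + 2)) - X n := hX n
  have e4 : X (n + 4) = l (X (n + 3)) - X (n + 1) := hX (n + 1)
  have e5 : X (n + 5) = l (X (n + 4)) - X (n + 2) := hX (n + 2)
  have e6 : X (n + 6) = l (X (n + 5)) - X (n + 3) := hX (n + 3)
  have e7 : X (n + 7) = l (X (n + 6)) - X (n + 4) := hX (n + 4)
  have e8 : X (n + 8) = l (X (n + 7)) - X (n + 5) := hX (n + 5)
  have e9 : X (n + 9) = l (X (n + 8)) - X (n + 6) := hX (n + 6)
  have e10 : X (n + 10) = l (X (n + 9)) - X (n + 7) := hX (n + 7)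
  -- general upper bound
  have up : ∀ t s, t ≤ s → 0 ≤ s → l t ≤ s + c := by
    intro t s hts hs
    rcases le_total t 0 with h | h
    · linarith [h3 t h]
    · linarith [h4 t h]
  -- X (n+3)
  have b3 : l (X (n + 2)) ≤ c + c := up _ _ (by linarith) (by linarith)
  have b3' : -c ≤ l (X (n + 2)) := h2 _
  -- X (n+4)
  have b4 : X (n + 3) ≤ l (X (n + 3)) := h1 _
  have b4' : l (X (n + 3)) ≤ (X (n + 3) + 2 * c) + c := up _ _ (by linarith) (by linarith)
  -- X (n+5)
  have b5 : X (n + 4) ≤ l (X (n + 4)) := h1 _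
  have b5' : l (X (n + 4)) ≤ X (n + 4) + c := up _ _ le_rfl (by linarith)
  -- X (n+6)
  have b6 : X (n + 5) ≤ l (X (n + 5)) := h1 _
  have b6' : l (X (n + 5)) ≤ X (n + 5) + c := up _ _ le_rfl (by linarith)
  -- X (n+7)
  have b7 : X (n + 6) ≤ l (X (n + 6)) := h1 _
  have b7' : l (X (n + 6)) ≤ X (n + 6) + c := up _ _ le_rfl (by linarith)
  refine ⟨by linarith, ?_⟩
  rcases le_total (X (n + 7)) 0 with h | h
  · -- case 1 : four positive terms
    have b8 : l (X (n + 7)) ≤ c := h3 _ h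
    have b8' : -c ≤ l (X (n + 7)) := h2 _
    have b9 : l (X (n + 8)) ≤ c := h3 _ (by linarith)
    have b9' : -c ≤ l (X (n + 8)) := h2 _
    refine ⟨n + 7, -X (n + 7), -X (n + 8), -X (n + 9), by ring, by ring_nf, by ring_nf, ?_, ?_, ?_, ?_, ?_⟩
      <;> linarith
  · -- case 2 : five positive terms
    have b8 : X (n + 7) ≤ l (X (n + 7)) := h1 _
    have b8' : l (X (n + 7)) ≤ X (n + 7) + c := h4 _ h
    have b9 : l (X (n + 8)) ≤ c := h3 _ (by linarith)
    have b9' : -c ≤ l (X (n + 8)) := h2 _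
    have b10 : l (X (n + 9)) ≤ c := h3 _ (by linarith)
    have b10' : -c ≤ l (X (n + 9)) := h2 _
    refine ⟨n + 8, -X (n + 8), -X (n + 9), -X (n + 10), by ring, by ring_nf, by ring_nf, ?_, ?_, ?_, ?_, ?_⟩
      <;> linarith

/-- The invariant at index `n`, with size at least `T`. -/
theorem climb (l : ℝ → ℝ) (c : ℝ) (hc : 0 < c)
    (h1 : ∀ t, t ≤ l t) (h2 : ∀ t, -c ≤ l t) (h3 : ∀ t, t ≤ 0 → l t ≤ c)
    (h4 : ∀ t, 0 ≤ t → l t ≤ t + c)
    (X : ℕ → ℝ) (hX : ∀ n, X (n + 3) = l (X (n + 2)) - X n)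
    (A B C : ℝ) (hA : X 0 = -A) (hB : X 1 = -B) (hC : X 2 = -C)
    (iA : -c ≤ A) (iC : -c ≤ C) (iB : A + B + C ≤ 4 * B) (iS : 1000 * c ≤ A + B + C) (k : ℕ) :
    ∃ m A' B' C', X m = -A' ∧ X (m + 1) = -B' ∧ X (m + 2) = -C' ∧ -c ≤ A' ∧ -c ≤ C' ∧
      A' + B' + C' ≤ 4 * B' ∧ 1000 * c ≤ A' + B' + C' ∧ (A + B + C) + k * c ≤ A' + B' + C' := by
  induction k with
  | zero => exact ⟨0, A, B, C, hA, hB, hC, iA, iC, iB, iS, by simp⟩
  | succ k ih =>
    obtain ⟨m, A', B', C', g1, g2, g3, g4, g5, g6, g7, g8⟩ := ih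
    obtain ⟨-, m', A2, B2, C2, k1, k2, k3, k4, k5, k6, k7, k8⟩ :=
      step l c hc h1 h2 h3 h4 X hX m A' B' C' g1 g2 g3 g4 g5 g6 g7
    refine ⟨m', A2, B2, C2, k1, k2, k3, k4, k5, k6, k7, ?_⟩
    push_cast
    linarith

/-- For every `α > 0` there is a nonempty open set `U` of positive initial conditions such that for
every `p ∈ U` the solution `x` of `x (n+3) = (α + x (n+2)) / x n` with initial condition
`(x 0, x 1, x 2) = p` is (positive and) unbounded. -/
theorem result (α : ℝ) (hα : 0 < α) :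
    ∃ U : Set (ℝ × ℝ × ℝ), IsOpen U ∧ U.Nonempty ∧
      ∀ p ∈ U, ∃ x : ℕ → ℝ, x 0 = p.1 ∧ x 1 = p.2.1 ∧ x 2 = p.2.2 ∧ (∀ n, 0 < x n) ∧
        (∀ n, x (n + 3) = (α + x (n + 2)) / x n) ∧ ¬ BddAbove (Set.range x) := by
  obtain ⟨c, hc, hc1, hc2⟩ : ∃ c : ℝ, 0 < c ∧ -c ≤ Real.log α ∧ Real.log (1 + α) ≤ c := by
    refine ⟨|Real.log α| + Real.log (1 + α), ?_, ?_, ?_⟩
    · have : 0 < Real.log (1 + α) := Real.log_pos (by linarith)
      have := abs_nonneg (Real.log α)
      linarith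
    · have : 0 < Real.log (1 + α) := Real.log_pos (by linarith)
      have := neg_abs_le (Real.log α)
      linarith
    · have := abs_nonneg (Real.log α)
      linarith
  set l : ℝ → ℝ := fun t => Real.log (α + Real.exp t) with hl
  have h1 : ∀ t, t ≤ l t := by
    intro t
    rw [hl]
    simp only
    rw [Real.le_log_iff_exp_le (by positivity)]
    linarith
  have h2 : ∀ t, -c ≤ l t := by
    intro t
    have : Real.log α ≤ l t := by
      apply Real.log_le_log hα
      have := Real.exp_pos t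
      linarith
    linarith
  have h3 : ∀ t, t ≤ 0 → l t ≤ c := by
    intro t ht
    have : l t ≤ Real.log (1 + α) := by
      apply Real.log_le_log (by positivity)
      have : Real.exp t ≤ 1 := Real.exp_le_one_iff.mpr ht
      linarith
    linarith
  have h4 : ∀ t, 0 ≤ t → l t ≤ t + c := by
    intro t ht
    have : l t ≤ Real.log (Real.exp t * (1 + α)) := by
      apply Real.log_le_log (by positivity)
      have : 1 ≤ Real.exp t := Real.one_le_exp ht
      nlinarith
    rw [Real.log_mul (by positivity) (by positivity), Real.log_exp] at this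
    linarith
  -- the open set: logarithms near `(-2000c, -2000c, -2000c)`
  let V : Set (ℝ × ℝ × ℝ) := {p | p.1 < 1 ∧ p.2.1 < Real.exp (-(2000 * c)) ∧ p.2.2 < 1 ∧
    Real.exp (-(1000 * c)) < p.1 ∧ Real.exp (-(3000 * c)) < p.2.1 ∧ Real.exp (-(1000 * c)) < p.2.2}
  have hVpos : ∀ p ∈ V, 0 < p.1 ∧ 0 < p.2.1 ∧ 0 < p.2.2 := by
    rintro p ⟨-, -, -, a, b, d⟩
    exact ⟨(Real.exp_pos _).trans a, (Real.exp_pos _).trans b, (Real.exp_pos _).trans d⟩
  refine ⟨V, ?_, ?_, ?_⟩
  · simp only [V, Set.ofPred_and]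
    refine IsOpen.inter ?_ (IsOpen.inter ?_ (IsOpen.inter ?_ (IsOpen.inter ?_ (IsOpen.inter ?_ ?_))))
    · exact isOpen_lt (by fun_prop) (by fun_prop)
    · exact isOpen_lt (by fun_prop) (by fun_prop)
    · exact isOpen_lt (by fun_prop) (by fun_prop)
    · exact isOpen_lt (by fun_prop) (by fun_prop)
    · exact isOpen_lt (by fun_prop) (by fun_prop)
    · exact isOpen_lt (by fun_prop) (by fun_prop)
  · refine ⟨(Real.exp (-(500 * c)), Real.exp (-(2500 * c)), Real.exp (-(500 * c))), ?_⟩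
    refine ⟨?_, ?_, ?_, ?_, ?_, ?_⟩
    · simp only [Real.exp_lt_one_iff]; linarith
    · simp only [Real.exp_lt_exp]; linarith
    · simp only [Real.exp_lt_one_iff]; linarith
    · simp only [Real.exp_lt_exp]; linarith
    · simp only [Real.exp_lt_exp]; linarith
    · simp only [Real.exp_lt_exp]; linarith
  · intro p hp
    have hpos := hVpos p hp
    obtain ⟨u1, u2, u3, u4, u5, u6⟩ := hp
    obtain ⟨x, hx0, hx1, hx2, hx⟩ : ∃ x : ℕ → ℝ, x 0 = p.1 ∧ x 1 = p.2.1 ∧ x 2 = p.2.2 ∧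
        ∀ n, x (n + 3) = (α + x (n + 2)) / x n := by
      let F : ℕ → ℝ × ℝ × ℝ :=
        fun n => (fun q : ℝ × ℝ × ℝ => (q.2.1, q.2.2, (α + q.2.2) / q.1))^[n] p
      have hF : ∀ n, F (n + 1) = ((F n).2.1, (F n).2.2, (α + (F n).2.2) / (F n).1) := by
        intro n
        simp only [F, Function.iterate_succ_apply']
      refine ⟨fun n => (F n).1, rfl, ?_, ?_, ?_⟩
      · rfl
      · rfl
      · intro n
        simp only [hF]
    have posall : ∀ n, 0 < x n ∧ 0 < x (n + 1) ∧ 0 < x (n + 2) := by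
      intro n
      induction n with
      | zero => exact ⟨by rw [hx0]; exact hpos.1, by simp only [zero_add]; rw [hx1]; exact hpos.2.1,
          by simp only [zero_add]; rw [hx2]; exact hpos.2.2⟩
      | succ n ih =>
        refine ⟨ih.2.1, ih.2.2, ?_⟩
        have := hx n
        rw [show n + 1 + 2 = n + 3 by ring, this]
        exact div_pos (by linarith [ih.2.2]) ih.1
    have pos : ∀ n, 0 < x n := fun n => (posall n).1
    let X : ℕ → ℝ := fun n => Real.log (x n)
    have hX : ∀ n, X (n + 3) = l (X (n + 2)) - X n := by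
      intro n
      simp only [X, hl]
      rw [hx n, Real.log_div (by linarith [pos (n + 2)]) (pos n).ne', Real.exp_log (pos _)]
    have w0 : X 0 ≤ 0 := by
      simp only [X]; rw [hx0]; exact Real.log_nonpos hpos.1.le u1.le
    have w0' : -(1000 * c) ≤ X 0 := by
      simp only [X]; rw [hx0, Real.le_log_iff_exp_le hpos.1]; exact u4.le
    have w1 : X 1 ≤ -(2000 * c) := by
      simp only [X]; rw [hx1, Real.log_le_iff_le_exp hpos.2.1]; exact u2.le
    have w2 : X 2 ≤ 0 := by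
      simp only [X]; rw [hx2]; exact Real.log_nonpos hpos.2.2.le u3.le
    have w2' : -(1000 * c) ≤ X 2 := by
      simp only [X]; rw [hx2, Real.le_log_iff_exp_le hpos.2.2]; exact u6.le
    refine ⟨x, hx0, hx1, hx2, pos, hx, ?_⟩
    rintro ⟨M, hM⟩
    have hxM : ∀ n, x n ≤ M := fun n => hM ⟨n, rfl⟩
    have hXM : ∀ n, X n ≤ Real.log M := fun n => Real.log_le_log (pos n) (hxM n)
    obtain ⟨k, hk⟩ := exists_nat_gt ((Real.log M) / c)
    have hk' : Real.log M < k * c := by
      rwa [div_lt_iff₀ hc] at hk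
    obtain ⟨m, A', B', C', g1, g2, g3, g4, g5, g6, g7, g8⟩ :=
      climb l c hc h1 h2 h3 h4 X hX (-X 0) (-X 1) (-X 2) (by ring) (by ring) (by ring)
        (by linarith) (by linarith) (by linarith) (by linarith) k
    obtain ⟨q, -⟩ := step l c hc h1 h2 h3 h4 X hX m A' B' C' g1 g2 g3 g4 g5 g6 g7
    have := hXM (m + 5)
    linarith

end Pool.Agent.Results.MP_f66a6a_an.Unbounded
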